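import Pool.Agent.W2helper98.TG.Force

/-!
# Four colours: towers of full height with few types
-/

set_option autoImplicit false

namespace Pool.Agent.W2helper98.TG

open Finset Pool.Agent.TH138.NF Pool.Agent.Y424.LK
open Pool.Agent.TH458.VC (VCle Shat Phi Phi_mono Phi_pos lower)
open Pool.Agent.N584.TI (Arrow)

/-- the bound for the number of types -/
def Bd (s d m : ℕ) : ℕ := 2 * (m + 1) ^ (4 * s + 5) * Phi m d

theorem Bd_mono (s d : ℕ) : Monotone (Bd s d) := by
  intro a b hab
  unfold Bd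
  have h1 := Phi_mono hab d
  have h2 : (a + 1) ^ (4 * s + 5) ≤ (b + 1) ^ (4 * s + 5) := Nat.pow_le_pow_left (by omega) _
  gcongr

theorem Bd_pos (s d m : ℕ) : 1 ≤ Bd s d m :=
  Nat.mul_pos (Nat.mul_pos (by norm_num) (by positivity)) (Phi_pos m d)

/-- graphs of bounded VC-dimension -/
theorem few_graph {M d : ℕ} (G : SimpleGraph (Fin M)) (hd : VCle G d) :
    FewTypes (fun m => (m + 1) * (Phi m d + 1)) 2 M (colG G) := by
  classical
  intro W hW V hV hdis hsep
  obtain ⟨α, hα, code, hcard, hcode⟩ := tb_graph G hd W hW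
  refine le_trans ?_ hcard
  rw [← card_univ (α := α)]
  apply card_le_card_of_injOn (fun x => code {x}) (fun x _ => mem_coe.2 (mem_univ _))
  intro x hx y hy heq
  by_contra hxy
  obtain ⟨A, hA, hAc, hne⟩ := hsep x hx y hy hxy
  obtain ⟨z, rfl⟩ := card_eq_one.1 (show A.card = 1 by omega)
  have hzW : z ∈ W := hA (mem_singleton_self z)
  have hx1 : ({x} : Finset ℕ) ⊆ range M := singleton_subset_iff.2 (hV hx)
  have hy1 : ({y} : Finset ℕ) ⊆ range M := singleton_subset_iff.2 (hV hy)
  have h1 := (hcode {x} {y} hx1 hy1 (card_singleton x) (card_singleton y) heq z hzW).2 (by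
    rw [mem_singleton]
    rintro rfl
    exact (disjoint_left.1 hdis) hx hzW)
  apply hne
  rw [show (insert x {z} : Finset ℕ) = insert z {x} from pair_comm x z,
    show (insert y {z} : Finset ℕ) = insert z {y} from pair_comm y z]
  exact h1

/-- The protocols. -/
theorem tower_types (s : ℕ) : ∀ (M k d : ℕ) (G : SimpleGraph (Fin M)), 1 ≤ M →
    2 ≤ k → VCle G d → G.CliqueFree k → Gᶜ.CliqueFree k →
    ∃ P : Protocol (Bool × Bool) (s + 2),
      (∃ n, 2 ≤ n ∧ n ≤ 2 ^ s * (k + 1 + s) ∧ ∀ S ⊆ range (NN M s), S.card = n → ¬ Hom P S) ∧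
      FewTypes (Bd s d) (s + 3) (NN M s) (colour P (false, false)) := by
  induction s with
  | zero =>
    intro M k d G hM hk hd h1 h2
    refine ⟨base (adjN G) M, ⟨k + 1, by omega, by omega, ?_⟩, ?_⟩
    · exact base_hom (adjN G) M M k Nat.lt_two_pow_self.le hk (graph_hom G h1 h2)
    · have h3 := few_step (steps_base G (j := M) Nat.lt_two_pow_self.le) hM
        (B := fun m => (m + 1) * (Phi m d + 1)) (by
            intro m m' hmm
            have := Phi_mono hmm d
            simp only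
            gcongr) (fun m => Nat.mul_pos (Nat.succ_pos _) (Nat.succ_pos _)) (few_graph G hd)
      refine few_mono ?_ h3
      intro m
      have h4 : Phi m d + 1 ≤ 2 * Phi m d := by
        have := Phi_pos m d
        omega
      calc (m + 1) ^ 4 * ((m + 1) * (Phi m d + 1)) ≤ (m + 1) ^ 4 * ((m + 1) * (2 * Phi m d)) := by
            gcongr
        _ = Bd 0 d m := by
          unfold Bd
          ring
  | succ s ih =>
    intro M k d G hM hk hd h1 h2
    obtain ⟨P, ⟨n, hn2, hn, hP⟩, hT⟩ := ih M k d G hM hk hd h1 h2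
    refine ⟨P.step, ⟨2 * n + s, by omega, ?_, step_lower P (NN M s) n hn2 hP⟩, ?_⟩
    · have h1 : s ≤ 2 ^ s := Nat.lt_two_pow_self.le
      calc 2 * n + s ≤ 2 * (2 ^ s * (k + 1 + s)) + 2 ^ s := by omega
        _ ≤ 2 ^ (s + 1) * (k + 1 + (s + 1)) := by
          rw [pow_succ]
          nlinarith
    · have h3 := few_step (steps_step P (NN M s)) (NN_pos M s) (Bd_mono s d) (Bd_pos s d) hT
      refine few_mono ?_ h3
      intro m
      apply le_of_eq
      unfold Bd
      rw [show 4 * (s + 1) + 5 = 4 + (4 * s + 5) by ring, pow_add (m + 1) 4]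
      ring

/-- **Four colours, few types, towers of full height.** -/
theorem four_types (s : ℕ) : ∃ C : ℕ, 1 ≤ C ∧ ∀ d n : ℕ, C ≤ d → C * d ≤ n →
    ∃ N : ℕ, tow (s + 2) (1 / C * (d * Real.logb 2 ((n : ℝ) / d))) ≤ N ∧
      ¬ Arrow (κ := Bool × Bool) (FewTypes (Bd s d)) (s + 3) n N := by
  classical
  refine ⟨131072 * 4 ^ (s + 1), Nat.mul_pos (by norm_num) (by positivity), ?_⟩
  intro d n hd hn
  set q := 4 ^ (s + 1) with hq
  have hq1 : 1 ≤ q := Nat.one_le_pow _ _ (by norm_num)
  set k := n / 2 ^ s - (s + 1) with hk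
  have hp : 0 < 2 ^ s := by positivity
  have h2s : (2 ^ (s + 1)) * (2 ^ (s + 1)) = q := by
    rw [hq, ← mul_pow]
    norm_num
  have hs2 : s + 2 ≤ 2 ^ (s + 1) := Nat.lt_two_pow_self
  have hnd : 131072 * q * d ≤ n := hn
  have hd10 : 10 ≤ d := by nlinarith
  have hnq : 65536 * (2 ^ (s + 1) * d) * 2 ^ (s + 1) ≤ n := by
    calc 65536 * (2 ^ (s + 1) * d) * 2 ^ (s + 1) = 65536 * (2 ^ (s + 1) * 2 ^ (s + 1)) * d := by ring
      _ = 65536 * q * d := by rw [h2s]
      _ ≤ 131072 * q * d := by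
          apply Nat.mul_le_mul_right
          nlinarith
      _ ≤ n := hnd
  have hdiv : 2 * (65536 * (2 ^ (s + 1) * d)) ≤ n / 2 ^ s := by
    rw [Nat.le_div_iff_mul_le hp]
    calc 2 * (65536 * (2 ^ (s + 1) * d)) * 2 ^ s = 65536 * (2 ^ (s + 1) * d) * 2 ^ (s + 1) := by
          rw [pow_succ]; ring
      _ ≤ n := hnq
  have hkn : 2 ^ s * (k + 1 + s) ≤ n := by
    have h1 : k + 1 + s ≤ n / 2 ^ s := by
      have h2 : s + 2 ≤ 2 ^ (s + 1) * d := by nlinarith
      omega
    calc 2 ^ s * (k + 1 + s) ≤ 2 ^ s * (n / 2 ^ s) := Nat.mul_le_mul_left _ h1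
      _ ≤ n := Nat.mul_div_le n (2 ^ s)
  have hk1 : 65536 * (2 ^ (s + 1) * d) ≤ k := by
    have h2 : s + 2 ≤ 2 ^ (s + 1) * d := by nlinarith
    omega
  have hkd : 65536 * d ≤ k := by
    have h2 : 1 ≤ 2 ^ (s + 1) := Nat.one_le_two_pow
    have h3 : d ≤ 2 ^ (s + 1) * d := by nlinarith
    omega
  have hk2 : n ≤ 2 ^ (s + 1) * k := by
    have h3 : n < 2 ^ s * (n / 2 ^ s) + 2 ^ s := Nat.lt_mul_div_succ n hp |>.trans_le (by
      rw [Nat.mul_add, mul_one])
    have h4 : n / 2 ^ s ≤ k + (s + 1) := by omega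
    have h5 : s + 2 ≤ k := by
      have h2 : s + 2 ≤ 2 ^ (s + 1) * d := by nlinarith
      omega
    calc n ≤ 2 ^ s * (n / 2 ^ s) + 2 ^ s := h3.le
      _ ≤ 2 ^ s * (k + (s + 1)) + 2 ^ s := by
          apply Nat.add_le_add_right
          exact Nat.mul_le_mul_left _ h4
      _ = 2 ^ s * (k + (s + 2)) := by ring
      _ ≤ 2 ^ s * (k + k) := Nat.mul_le_mul_left _ (by omega)
      _ = 2 ^ (s + 1) * k := by rw [pow_succ]; ring
  obtain ⟨M, G, g1, g2, g3, g4⟩ := lower d k hd10 hkd
  have hdr : (0 : ℝ) < d := by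
    have : 0 < d := by omega
    exact_mod_cast this
  have hkr : (0 : ℝ) < k := by
    have : 0 < k := by omega
    exact_mod_cast this
  have hnr : (0 : ℝ) < n := by
    have : 0 < n := by nlinarith
    exact_mod_cast this
  have hqr : (1 : ℝ) ≤ q := by exact_mod_cast hq1
  have hlogpos : 0 < Real.log ((k : ℝ) / d) := by
    apply Real.log_pos
    rw [lt_div_iff₀ hdr]
    have : (65536 : ℝ) * d ≤ k := by exact_mod_cast hkd
    linarith
  have hlogM : 0 < Real.log M := lt_of_lt_of_le (by positivity) g4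
  have hM : 1 ≤ M := by
    rcases Nat.eq_zero_or_pos M with h | h
    · rw [h] at hlogM
      simp at hlogM
    · exact h
  have hMr : (0 : ℝ) < M := by exact_mod_cast hM
  obtain ⟨P, ⟨n', hn2, hn', hP⟩, hT⟩ := tower_types s M k d G hM (by omega) g3 g1 g2
  refine ⟨NN M s, ?_, ?_⟩
  · rw [NN_tow, tow_two]
    apply tow_mono
    rw [← Real.le_logb_iff_rpow_le (by norm_num) hMr, Real.logb, Real.logb]
    have hlog2 : 0 < Real.log 2 := Real.log_pos (by norm_num)
    rw [show 1 / ((131072 * q : ℕ) : ℝ) * (d * (Real.log ((n : ℝ) / d) / Real.log 2)) =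
      (1 / ((131072 * q : ℕ) : ℝ) * (d * Real.log ((n : ℝ) / d))) / Real.log 2 by ring]
    apply div_le_div_of_nonneg_right _ hlog2.le
    refine le_trans ?_ g4
    -- logarithms
    have h1 : Real.log ((n : ℝ) / d) ≤ 2 * Real.log ((k : ℝ) / d) := by
      have h2 : (n : ℝ) / d ≤ ((k : ℝ) / d) ^ 2 := by
        have h3 : (n : ℝ) ≤ 2 ^ (s + 1) * k := by exact_mod_cast hk2
        have h4 : ((2 : ℝ) ^ (s + 1)) * d ≤ k := by
          have : (2 ^ (s + 1)) * d ≤ k := by omega
          exact_mod_cast this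
        rw [div_le_iff₀ hdr, div_pow, div_mul_eq_mul_div, le_div_iff₀ (by positivity)]
        calc (n : ℝ) * (d : ℝ) ^ 2 ≤ (2 ^ (s + 1) * k) * (d * d) := by
              apply mul_le_mul h3 _ (by positivity) (by positivity)
              rw [sq]
          _ = (2 ^ (s + 1) * d) * (k * d) := by ring
          _ ≤ k * (k * d) := mul_le_mul_of_nonneg_right h4 (by positivity)
          _ = (k : ℝ) ^ 2 * d := by ring
      calc Real.log ((n : ℝ) / d) ≤ Real.log (((k : ℝ) / d) ^ 2) :=
            Real.log_le_log (by positivity) h2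
        _ = 2 * Real.log ((k : ℝ) / d) := by rw [Real.log_pow]; norm_num
    have h3 : 1 / ((131072 * q : ℕ) : ℝ) ≤ 1 / 64 := by
      apply one_div_le_one_div_of_le (by positivity)
      push_cast
      nlinarith
    calc 1 / ((131072 * q : ℕ) : ℝ) * (d * Real.log ((n : ℝ) / d))
        ≤ 1 / 64 * (d * (2 * Real.log ((k : ℝ) / d))) := by
          apply mul_le_mul h3 _ _ (by positivity)
          · exact mul_le_mul_of_nonneg_left h1 hdr.le
          · apply mul_nonneg hdr.le
            apply Real.log_nonneg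
            rw [le_div_iff₀ hdr, one_mul]
            have : d ≤ n := by nlinarith
            exact_mod_cast this
      _ = (d : ℝ) / 32 * Real.log ((k : ℝ) / d) := by
          ring
  · intro hA
    obtain ⟨H, hH, hc, b, hb⟩ := hA (colour P (false, false)) hT
    obtain ⟨T, hTH, hTc⟩ := exists_subset_card_eq (s := H) (n := n') (by omega)
    refine hP T (hTH.trans hH) hTc (hom_of_homogeneous (computes_colour P (false, false) (NN M s))
      (hTH.trans hH) ?_)
    intro A hA B hB hAc hBc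
    rw [hb A (hA.trans hTH) hAc, hb B (hB.trans hTH) hBc]

end Pool.Agent.W2helper98.TG
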