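import Mathlib

/-!
# Types of vertices over sets of vertices
-/

set_option autoImplicit false

namespace Pool.Agent.W2helper98.TG

open Finset

/-- Let `c` be a colouring of the `r`-subsets of `{0, …, N - 1}` and `W` a set of vertices. Two
vertices `x`, `y` outside `W` have the same type over `W` if `A ∪ {x}` and `A ∪ {y}` have the same
colour for all `(r - 1)`-subsets `A` of `W`. The condition `FewTypes B r N c` says that there are at
most `B |W|` types over `W`, for every `W`: a set `V` of vertices outside `W` with pairwise different
types over `W` has at most `B |W|` elements. -/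
def FewTypes {κ : Type*} (B : ℕ → ℕ) (r N : ℕ) (c : Finset ℕ → κ) : Prop :=
  ∀ W ⊆ range N, ∀ V ⊆ range N, Disjoint V W →
    (∀ x ∈ V, ∀ y ∈ V, x ≠ y → ∃ A ⊆ W, A.card + 1 = r ∧ c (insert x A) ≠ c (insert y A)) →
    V.card ≤ B W.card

end Pool.Agent.W2helper98.TG
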