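import Pool.Agent.W2helper98.TG.StepF
import Pool.Agent.Y424.LK.QMain

/-!
# Colourings without homogeneous sets have many types
-/

set_option autoImplicit false

namespace Pool.Agent.W2helper98.TG

open Finset Pool.Agent.TH138.NF Pool.Agent.Y424.LK
open Pool.Agent.TH458.VC (VCle Shat Phi)
open Pool.Agent.N584.TI (Arrow)

/-- From a shattered set to types. -/
theorem types_of_shattered {κ : Type} {c : Finset ℕ → κ} {a : κ} {s N D : ℕ}
    {U S Z : Finset ℕ} (hU : U ⊆ range N) (hS : S ⊆ range N) (hSc : S.card = s)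
    (hlt : ∀ u ∈ U, ∀ w ∈ S, u < w) (hZ : Z ⊆ U)
    (hsh : ShatteredBy c a {A | ∃ v ∈ U, A = insert v S} Z) (hD : D ≤ Z.card) :
    ∃ W ⊆ range N, ∃ V ⊆ range N, W.card = D + s ∧ Disjoint V W ∧ 2 ^ D ≤ V.card + D ∧
      ∀ x ∈ V, ∀ y ∈ V, x ≠ y → ∃ A ⊆ W, A.card + 1 = s + 2 ∧ c (insert x A) ≠ c (insert y A) := by
  classical
  obtain ⟨Z', hZ', hZc⟩ := exists_subset_card_eq hD
  have hZU : Z' ⊆ U := hZ'.trans hZ
  have hUS : ∀ u ∈ U, u ∉ S := fun u hu hus => lt_irrefl _ (hlt u hu u hus)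
  have hex : ∀ T : Finset ℕ, ∃ v : ℕ, T ⊆ Z' → v ∈ U ∧
      ∀ x ∈ Z', ((x ∉ insert v S ∧ c (insert x (insert v S)) = a) ↔ x ∈ T) := by
    intro T
    by_cases hT : T ⊆ Z'
    · obtain ⟨A, ⟨v, hv, rfl⟩, h⟩ := hsh T (hT.trans hZ')
      exact ⟨v, fun _ => ⟨hv, fun x hx => h x (hZ' hx)⟩⟩
    · exact ⟨0, fun h => absurd h hT⟩
  choose f hf using hex
  have hinj : Set.InjOn f (Z'.powerset : Set (Finset ℕ)) := by
    intro T hT T' hT' heq
    have hT1 : T ⊆ Z' := by simpa using hT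
    have hT2 : T' ⊆ Z' := by simpa using hT'
    ext x
    by_cases hx : x ∈ Z'
    · rw [← (hf T hT1).2 x hx, ← (hf T' hT2).2 x hx, heq]
    · exact ⟨fun h => absurd (hT1 h) hx, fun h => absurd (hT2 h) hx⟩
  refine ⟨Z' ∪ S, union_subset (hZU.trans hU) hS, (Z'.powerset.image f) \ Z', ?_, ?_, ?_, ?_, ?_⟩
  · intro x hx
    obtain ⟨T, hT, rfl⟩ := mem_image.1 (mem_sdiff.1 hx).1
    exact hU (hf T (mem_powerset.1 hT)).1
  · rw [card_union_of_disjoint, hZc, hSc]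
    rw [disjoint_left]
    intro u hu
    exact hUS u (hZU hu)
  · rw [disjoint_left]
    intro x hx hxW
    obtain ⟨hx1, hx2⟩ := mem_sdiff.1 hx
    obtain ⟨T, hT, rfl⟩ := mem_image.1 hx1
    rcases mem_union.1 hxW with h | h
    · exact hx2 h
    · exact hUS _ (hf T (mem_powerset.1 hT)).1 h
  · have h1 : (Z'.powerset.image f).card = 2 ^ D := by
      rw [card_image_of_injOn hinj, card_powerset, hZc]
    have h2 := card_sdiff_add_card (Z'.powerset.image f) Z'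
    have h3 := card_le_card (subset_union_left (s₁ := Z'.powerset.image f) (s₂ := Z'))
    omega
  · intro x hx y hy hxy
    obtain ⟨hx1, hx2⟩ := mem_sdiff.1 hx
    obtain ⟨hy1, hy2⟩ := mem_sdiff.1 hy
    obtain ⟨T, hT, rfl⟩ := mem_image.1 hx1
    obtain ⟨T', hT', rfl⟩ := mem_image.1 hy1
    have hT1 : T ⊆ Z' := mem_powerset.1 hT
    have hT2 : T' ⊆ Z' := mem_powerset.1 hT'
    have hne : ∃ z ∈ Z', ¬ (z ∈ T ↔ z ∈ T') := by
      by_contra hcon
      push Not at hcon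
      apply hxy
      congr 1
      ext z
      by_cases hz : z ∈ Z'
      · exact hcon z hz
      · exact ⟨fun h => absurd (hT1 h) hz, fun h => absurd (hT2 h) hz⟩
    obtain ⟨z, hz, hzne⟩ := hne
    have hzS : z ∉ S := hUS z (hZU hz)
    refine ⟨insert z S, insert_subset (mem_union_left _ hz) subset_union_right, ?_, ?_⟩
    · rw [card_insert_of_notMem hzS, hSc]
    · intro heq
      apply hzne
      have hz1 : z ∉ insert (f T) S := by
        rw [mem_insert, not_or]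
        exact ⟨fun e => hx2 (e ▸ hz), hzS⟩
      have hz2 : z ∉ insert (f T') S := by
        rw [mem_insert, not_or]
        exact ⟨fun e => hy2 (e ▸ hz), hzS⟩
      rw [← (hf T hT1).2 z hz, ← (hf T' hT2).2 z hz, insert_comm z (f T), insert_comm z (f T'), heq]
      exact ⟨fun h => ⟨hz2, h.2⟩, fun h => ⟨hz1, h.2⟩⟩

/-- Colourings without homogeneous sets: shattered sets in links. -/
theorem exists_shattered : ∃ C : ℝ, 0 < C ∧ ∀ (κ : Type) [Fintype κ] (q : ℕ), Fintype.card κ = q →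
    ∀ s N n d : ℕ, 2 ≤ n → 1 ≤ d →
    tow (s + 1) (C * (q : ℝ) ^ 3 * (d * Real.log (2 + (n : ℝ) / d) + Real.sqrt (n * Real.log n)) +
      q * ((s : ℝ) + 3) ^ 2) ≤ N →
    ∀ c : Finset ℕ → κ, (∀ H ⊆ range N, H.card = n → ¬ Homogeneous (s + 2) c H) →
      ∃ (a : κ) (U S Z : Finset ℕ), U ⊆ range N ∧ S ⊆ range N ∧ S.card = s ∧
        (∀ u ∈ U, ∀ w ∈ S, u < w) ∧ Z ⊆ U ∧
        ShatteredBy c a {A | ∃ v ∈ U, A = insert v S} Z ∧ d < Z.card := by
  classical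
  obtain ⟨C, hC, hUP⟩ := asy_q
  refine ⟨4 * C, by positivity, ?_⟩
  intro κ _ q hq s N n d hn hd hN c hcon0
  have hq1 : 1 ≤ q := by
    have : 0 < Fintype.card κ := Fintype.card_pos_iff.2 ⟨c ∅⟩
    omega
  have hq1r : (1 : ℝ) ≤ q := by exact_mod_cast hq1
  have hlog2 : (1 : ℝ) / 2 < Real.log 2 := by
    have := Real.log_two_gt_d9
    linarith
  set B : ℝ := C * (q : ℝ) ^ 3 *
    (d * Real.log (2 + (n : ℝ) / d) + Real.sqrt (n * Real.log n)) with hB
  have hB0 : 0 ≤ B := by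
    have h2 : 0 ≤ (d : ℝ) * Real.log (2 + (n : ℝ) / d) := by
      apply mul_nonneg (Nat.cast_nonneg d)
      apply Real.log_nonneg
      have : 0 ≤ (n : ℝ) / d := by positivity
      linarith
    have h3 := Real.sqrt_nonneg (n * Real.log n)
    rw [hB]
    positivity
  set Y := ⌊2 * B⌋₊ + 1 with hY
  have hY1 : 2 * B < Y := by
    rw [hY]
    push_cast
    exact Nat.lt_floor_add_one _
  have hY2 : (Y : ℝ) ≤ 2 * B + 1 := by
    rw [hY]
    push_cast
    have := Nat.floor_le (show 0 ≤ 2 * B by positivity)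
    linarith
  have hN' : twr (s + 1) (2 * Y + q * (s + 2) ^ 2) ≤ N := by
    have h1 : ((twr (s + 1) (2 * Y + q * (s + 2) ^ 2) : ℕ) : ℝ) ≤ N := by
      rw [twr_cast]
      refine le_trans (tow_mono (s + 1) ?_) hN
      push_cast
      have h4 : 4 * C * (q : ℝ) ^ 3 *
          (d * Real.log (2 + (n : ℝ) / d) + Real.sqrt (n * Real.log n)) = 4 * B := by
        rw [hB]; ring
      rw [h4]
      have h5 : (0 : ℝ) ≤ s := Nat.cast_nonneg s
      have h6 : (q : ℝ) * ((s : ℝ) + 2) ^ 2 + 2 ≤ q * ((s : ℝ) + 3) ^ 2 := by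
        have : (q : ℝ) * ((s : ℝ) + 3) ^ 2 = q * ((s : ℝ) + 2) ^ 2 + q * (2 * s + 5) := by ring
        rw [this]
        nlinarith
      linarith
    exact_mod_cast h1
  obtain ⟨U, S, hU, hS, hUc, hSc, hlt, hlk, g1⟩ := exists_linkQ κ q hq1
    (by rw [hq]; exact le_two_pow' q) s Y n N hN' c hcon0
  by_contra hcon
  push Not at hcon
  have h1 := hUP κ q hq hq1 {x // x ∈ U} (lk c U S) (lk_comm c U S) n d hn hd
    (by rw [Fintype.card_coe, hUc]; exact Nat.one_le_two_pow)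
    (by
      intro a Z hZ
      rw [gr_lk] at hZ
      have h5 := shatteredBy_of_shat hlt hZ
      rw [← card_image_of_injective Z Subtype.val_injective]
      refine hcon a U S _ hU hS hSc hlt ?_ h5
      intro x hx
      obtain ⟨x', -, rfl⟩ := mem_image.1 hx
      exact x'.2)
    (by intro a; rw [gr_lk]; exact g1 a)
  rw [← hB, Fintype.card_coe, hUc] at h1
  push_cast at h1
  rw [Real.log_pow] at h1
  have h2 : (Y : ℝ) * (1 / 2) ≤ Y * Real.log 2 :=
    mul_le_mul_of_nonneg_left hlog2.le (Nat.cast_nonneg _)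
  linarith

theorem arrow_of {κ : Type} {P : ℕ → ℕ → (Finset ℕ → κ) → Prop} {r n N : ℕ} (hr : r ≤ n)
    (h : ∀ c : Finset ℕ → κ, P r N c → ∃ H ⊆ range N, H.card = n ∧ Homogeneous r c H) :
    Arrow (κ := κ) P r n N := by
  intro c hc
  obtain ⟨H, hH, hHc, hhom⟩ := h c hc
  obtain ⟨A0, hA0, hA0c⟩ := exists_subset_card_eq (s := H) (n := r) (by omega)
  exact ⟨H, hH, hHc, c A0, fun A hA hAc => hhom A hA A0 hA0 hAc hA0c⟩

/-- **Colourings with few types have large homogeneous sets.** -/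
theorem upper_types (κ : Type) [Fintype κ] (s K e : ℕ) (hK : 1 ≤ K) : ∃ C : ℝ, 0 < C ∧
    ∀ n d N : ℕ, 2 ≤ n → s + 2 ≤ n → 1 ≤ d →
      tow (s + 1) (C * (d * Real.log (2 + (n : ℝ) / d) + Real.sqrt (n * Real.log n)) + C) ≤ N →
      Arrow (κ := κ) (FewTypes fun m => K * (m + 1) ^ e * Phi m d) (s + 2) n N := by
  classical
  obtain ⟨C, hC, hsh⟩ := exists_shattered
  obtain ⟨C', hC', hnum⟩ := numeric_phi (2 ^ (s + 1) * K) e (Nat.mul_pos (by positivity) hK)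
  set q := Fintype.card κ with hq
  refine ⟨C * (q : ℝ) ^ 3 * C' + q * ((s : ℝ) + 3) ^ 2 + 1, by positivity, ?_⟩
  intro n d N hn hsn hd hN
  apply arrow_of hsn
  intro c hc
  by_contra hcon
  push Not at hcon
  have hd0 : (1 : ℝ) ≤ d := by exact_mod_cast hd
  have hC1 : (1 : ℝ) ≤ C' := by exact_mod_cast hC'
  have hq0 : (0 : ℝ) ≤ q := Nat.cast_nonneg q
  have hn0 : (0 : ℝ) < n := by
    have : 0 < n := by omega
    exact_mod_cast this
  have hs0 : (0 : ℝ) ≤ Real.sqrt (n * Real.log n) := Real.sqrt_nonneg _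
  have hle : C * (q : ℝ) ^ 3 * (((C' * d : ℕ) : ℝ) * Real.log (2 + (n : ℝ) / ((C' * d : ℕ) : ℝ)) +
      Real.sqrt (n * Real.log n)) + q * ((s : ℝ) + 3) ^ 2 ≤
      (C * (q : ℝ) ^ 3 * C' + q * ((s : ℝ) + 3) ^ 2 + 1) *
        (d * Real.log (2 + (n : ℝ) / d) + Real.sqrt (n * Real.log n)) +
        (C * (q : ℝ) ^ 3 * C' + q * ((s : ℝ) + 3) ^ 2 + 1) := by
    have h1 : Real.log (2 + (n : ℝ) / ((C' * d : ℕ) : ℝ)) ≤ Real.log (2 + (n : ℝ) / d) := by
      apply Real.log_le_log (by positivity)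
      have : (n : ℝ) / ((C' * d : ℕ) : ℝ) ≤ n / d := by
        apply div_le_div_of_nonneg_left hn0.le (by linarith)
        push_cast
        nlinarith
      linarith
    have h2 : 0 ≤ Real.log (2 + (n : ℝ) / d) := by
      apply Real.log_nonneg
      have : 0 ≤ (n : ℝ) / d := by positivity
      linarith
    have h3 : ((C' * d : ℕ) : ℝ) * Real.log (2 + (n : ℝ) / ((C' * d : ℕ) : ℝ)) +
        Real.sqrt (n * Real.log n) ≤
        C' * (d * Real.log (2 + (n : ℝ) / d) + Real.sqrt (n * Real.log n)) := by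
      push_cast at h1 ⊢
      have h4 : (C' : ℝ) * d * Real.log (2 + (n : ℝ) / (C' * d)) ≤
          C' * d * Real.log (2 + (n : ℝ) / d) := mul_le_mul_of_nonneg_left h1 (by positivity)
      nlinarith
    have h5 : C * (q : ℝ) ^ 3 * (((C' * d : ℕ) : ℝ) *
        Real.log (2 + (n : ℝ) / ((C' * d : ℕ) : ℝ)) + Real.sqrt (n * Real.log n)) ≤
        C * (q : ℝ) ^ 3 * (C' * (d * Real.log (2 + (n : ℝ) / d) + Real.sqrt (n * Real.log n))) :=
      mul_le_mul_of_nonneg_left h3 (by positivity)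
    set E : ℝ := d * Real.log (2 + (n : ℝ) / d) + Real.sqrt (n * Real.log n) with hE
    have hE0 : 0 ≤ E := by positivity
    set G : ℝ := q * ((s : ℝ) + 3) ^ 2 with hG
    have hG0 : 0 ≤ G := by positivity
    set F : ℝ := C * (q : ℝ) ^ 3 with hF
    have hF0 : 0 ≤ F := by positivity
    nlinarith [mul_nonneg hG0 hE0, mul_nonneg hF0 (show (0 : ℝ) ≤ C' by linarith)]
  obtain ⟨a, U, S, Z, hU, hS, hSc, hlt, hZ, hshat, hZc⟩ := hsh κ q rfl s N n (C' * d) hn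
    (Nat.mul_pos hC' hd) ((tow_mono (s + 1) hle).trans hN) c hcon
  obtain ⟨W, hW, V, hV, hWc, hdis, hVc, hsep⟩ := types_of_shattered (D := C' * d + 1) hU hS hSc hlt
    hZ hshat hZc
  have h1 := hc W hW V hV hdis hsep
  rw [hWc] at h1
  set D := C' * d + 1 with hD
  have h2 : 2 * D ≤ 2 ^ D := by
    have h3 : D ≤ 2 ^ (D - 1) := by
      have := Nat.lt_two_pow_self (n := D - 1)
      omega
    calc 2 * D ≤ 2 * 2 ^ (D - 1) := Nat.mul_le_mul_left _ h3
      _ = 2 ^ D := by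
        rw [← pow_succ', show D - 1 + 1 = D by omega]
  have h3 : 2 ^ (D + s) ≤ 2 ^ (s + 1) * K * (D + s + 1) ^ e * Phi (D + s) d := by
    calc 2 ^ (D + s) = 2 ^ s * 2 ^ D := by rw [pow_add, mul_comm]
      _ ≤ 2 ^ s * (2 * V.card) := Nat.mul_le_mul_left _ (by omega)
      _ ≤ 2 ^ s * (2 * (K * (D + s + 1) ^ e * Phi (D + s) d)) := by gcongr
      _ = 2 ^ (s + 1) * K * (D + s + 1) ^ e * Phi (D + s) d := by rw [pow_succ]; ring
  have h4 := hnum d (D + s) hd h3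
  omega

/-- **Exponentially many types are necessary for towers of full height.** -/
theorem forced_types : ∃ c₀ : ℝ, 0 < c₀ ∧ ∀ (q s : ℕ) (ε : ℝ), 0 < ε → ε ≤ 1 → ∃ n₀ : ℕ,
    ∀ (κ : Type) [Fintype κ], Fintype.card κ = q →
    ∀ n N : ℕ, n₀ ≤ n → tow (s + 1) (ε * n) ≤ N → ∀ c : Finset ℕ → κ,
      (∀ H ⊆ range N, H.card = n → ¬ Homogeneous (s + 2) c H) →
      ∀ m : ℕ, m ≤ c₀ * ε / ((q : ℝ) ^ 3 * Real.log (2 * q / ε)) * n →
      ∃ W ⊆ range N, ∃ V ⊆ range N, W.card = m + s ∧ Disjoint V W ∧ 2 ^ m ≤ V.card + m ∧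
        ∀ x ∈ V, ∀ y ∈ V, x ≠ y →
          ∃ A ⊆ W, A.card + 1 = s + 2 ∧ c (insert x A) ≠ c (insert y A) := by
  obtain ⟨c₀, hc₀, h⟩ := structQ
  refine ⟨c₀, hc₀, ?_⟩
  intro q s ε hε hε1
  obtain ⟨n₀, h0⟩ := h q s ε hε hε1
  refine ⟨n₀, ?_⟩
  intro κ _ hκ n N hn hN c hc m hm
  obtain ⟨U, S, hU, hS, hUc, hSc, hlt, hlk, g1, a, Z, hZ, hshat, hZc⟩ := h0 κ hκ n N hn hN c hc
  refine types_of_shattered hU hS hSc hlt hZ hshat ?_
  have h1 : (m : ℝ) ≤ Z.card := hm.trans hZc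
  exact_mod_cast h1

end Pool.Agent.W2helper98.TG
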