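import Pool.Agent.W2helper98.TG.StepF

/-!
# Ramsey numbers of colourings with few types, two colours
-/

set_option autoImplicit false

namespace Pool.Agent.W2helper98.TG

open Finset
open Pool.Agent.N584.TI

/-- A colouring with `q` colours has at most `q ^ (m choose (r - 1))` types over `m` vertices. -/
theorem few_all {κ : Type*} [Fintype κ] (r N : ℕ) (c : Finset ℕ → κ) :
    FewTypes (fun m => Fintype.card κ ^ m.choose (r - 1)) r N c := by
  classical
  intro W hW V hV hdis hsep
  rcases Nat.eq_zero_or_pos r with rfl | hr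
  · have hκ : 1 ≤ Fintype.card κ := Fintype.card_pos_iff.2 ⟨c ∅⟩
    have h1 : V.card ≤ 1 := by
      rw [card_le_one]
      intro x hx y hy
      by_contra hxy
      obtain ⟨A, -, hA, -⟩ := hsep x hx y hy hxy
      omega
    exact h1.trans (Nat.one_le_pow _ _ hκ)
  set e := (W.powersetCard (r - 1)).equivFin with he
  have h1 : V.card ≤ Fintype.card (Fin (W.powersetCard (r - 1)).card → κ) := by
    rw [← card_univ]
    apply card_le_card_of_injOn (fun x i => c (insert x (e.symm i).1))
      (fun x _ => mem_coe.2 (mem_univ _))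
    intro x hx y hy heq
    by_contra hxy
    obtain ⟨A, hA, hAc, hne⟩ := hsep x hx y hy hxy
    have h2 := congrFun heq (e ⟨A, mem_powersetCard.2 ⟨hA, by omega⟩⟩)
    simp only [Equiv.symm_apply_apply] at h2
    exact hne h2
  rw [Fintype.card_fun, Fintype.card_fin, card_powersetCard] at h1
  exact h1

/-- **The Ramsey numbers of colourings with few types are not smaller than by stepping up.** -/
theorem few_ineq {κ : Type} [Fintype κ] [Nontrivial κ] {B : ℕ → ℕ} (hB : Monotone B)
    (hB1 : ∀ m, 1 ≤ B m) {r n : ℕ} (hr : 3 ≤ r) (hn : 1 ≤ n) :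
    2 ^ (Ram (κ := κ) (FewTypes B) r n - 1) <
      Ram (κ := κ) (FewTypes fun m => (m + 1) ^ 4 * B m) (r + 1) (2 * n + r - 1) := by
  obtain ⟨κ₀, κ₁, hκ⟩ := exists_pair_ne κ
  obtain ⟨s, rfl⟩ : ∃ s, r = s + 3 := ⟨r - 3, by omega⟩
  have h1 : n ≤ Ram (κ := κ) (FewTypes B) (s + 3) n := le_Ram (by omega) (few_inh hB1)
  have h2 := arrow_step hκ hn hB hB1 (m := Ram (κ := κ) (FewTypes B) (s + 3) n - 1) (s := s)
    (n := n) (not_arrow_of_lt (by omega))
  have h3 := lt_Ram (by omega) few_hered h2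
  rwa [show 2 * n + s + 2 = 2 * n + (s + 3) - 1 by omega] at h3

/-- the bound for the number of types -/
def Bt (s m : ℕ) : ℕ := (m + 1) ^ (4 * (s - 3)) * 2 ^ m.choose 2

theorem Bt_mono (s : ℕ) : Monotone (Bt s) := by
  intro a b hab
  unfold Bt
  apply Nat.mul_le_mul
  · exact Nat.pow_le_pow_left (by omega) _
  · exact Nat.pow_le_pow_right (by norm_num) (Nat.choose_le_choose 2 hab)

theorem Bt_pos (s m : ℕ) : 1 ≤ Bt s m := Nat.mul_pos (by positivity) (by positivity)

theorem Bt_step {s : ℕ} (hs : 3 ≤ s) : (fun m => (m + 1) ^ 4 * Bt s m) = Bt (s + 1) := by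
  funext m
  unfold Bt
  rw [← mul_assoc, ← pow_add]
  congr 2
  omega

theorem few_three (N : ℕ) (c : Finset ℕ → Bool) : FewTypes (Bt 3) 3 N c := by
  refine few_mono ?_ (few_all 3 N c)
  intro m
  unfold Bt
  simp

theorem lo_types_step {e s k : ℕ} (he : 1 ≤ e) (hs : 3 ≤ s) (hk : 1 ≤ k)
    (h : Lo e k (Ram (κ := Bool) (FewTypes (Bt s)) s)) :
    Lo e (k + 1) (Ram (κ := Bool) (FewTypes (Bt (s + 1))) (s + 1)) := by
  refine lo_step (a := 2) (b := s - 1) he hk (by norm_num)
    (fun n m hnm => Ram_mono (by omega) hnm) ?_ h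
  intro n hn
  have h1 := few_ineq (κ := Bool) (Bt_mono s) (Bt_pos s) hs hn
  rw [Bt_step hs, show 2 * n + s - 1 = 2 * n + (s - 1) by omega] at h1
  exact h1.le

theorem lo_types {e k : ℕ} (he : 1 ≤ e) (hk : 1 ≤ k) (h : Lo e k (Ram (κ := Bool) AllCol 3))
    (s : ℕ) : Lo e (k + s) (Ram (κ := Bool) (FewTypes (Bt (s + 3))) (s + 3)) := by
  induction s with
  | zero =>
    exact h.mono fun n => by
      rcases Nat.eq_zero_or_pos n with rfl | hn
      · exact Ram_le (by
          intro c _
          have h1 : Arrow (κ := Bool) (FewTypes (Bt 3)) 3 0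
            (Ram (κ := Bool) (FewTypes (Bt 3)) 3 0) := Ram_spec (by norm_num)
          exact h1 c (few_three _ c))
      · exact Ram_le (by
          intro c _
          have h1 : Arrow (κ := Bool) (FewTypes (Bt 3)) 3 n
            (Ram (κ := Bool) (FewTypes (Bt 3)) 3 n) := Ram_spec (by norm_num)
          exact h1 c (few_three _ c))
  | succ s ih =>
    have := lo_types_step he (show 3 ≤ s + 3 by omega) (by omega) ih
    rwa [show k + s + 1 = k + (s + 1) by omega, show s + 3 + 1 = s + 1 + 3 by omega] at this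

/-- **The question for colourings with few types.** -/
theorem types_iff {s : ℕ} (hs : 3 ≤ s) :
    Q1 ↔ Growth (Ram (κ := Bool) (FewTypes (Bt s)) s) (s - 1) := by
  rw [Q1_iff_three, growth_class (few_inh (Bt_pos s)) (by omega)]
  obtain ⟨t, rfl⟩ : ∃ t, s = t + 3 := ⟨s - 3, by omega⟩
  constructor
  · intro h
    have := lo_types le_rfl (by norm_num) h t
    rwa [show 2 + t = t + 3 - 1 by omega] at this
  · intro h
    exact (all_iff (by omega)).1 (h.mono fun n => Ram_sub (by omega) (fun _ _ _ _ => trivial))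

theorem types_lower {s : ℕ} (hs : 3 ≤ s) :
    LowerGrowth (Ram (κ := Bool) (FewTypes (Bt s)) s) (s - 2) 2 := by
  obtain ⟨t, rfl⟩ : ∃ t, s = t + 3 := ⟨s - 3, by omega⟩
  have h := lo_types (e := 2) (by norm_num) le_rfl lo_three t
  rw [show 1 + t = t + 3 - 2 by omega] at h
  exact h.lower fun n => le_Ram (by omega) (few_inh (Bt_pos _))

end Pool.Agent.W2helper98.TG
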