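import Pool.Agent.W2helper98.TG.Defs
import Pool.Agent.Y424.LK.Lower

/-!
# Stepping up and types of vertices
-/

set_option autoImplicit false

namespace Pool.Agent.W2helper98.TG

open Finset Pool.Agent.TH138.NF Pool.Agent.Y424.LK

/-- Types as codes. -/
theorem exists_code {κ : Type*} {B : ℕ → ℕ} {R N : ℕ} {c : Finset ℕ → κ}
    (hT : FewTypes B (R + 1) N c) (hB1 : ∀ m, 1 ≤ B m) {W : Finset ℕ} (hW : W ⊆ range N) :
    ∃ code : ℕ → Fin (B W.card), ∀ x ∈ range N, ∀ y ∈ range N, x ∉ W → y ∉ W →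
      code x = code y → ∀ A ⊆ W, A.card = R → c (insert x A) = c (insert y A) := by
  classical
  set tp : ℕ → ({A // A ∈ W.powersetCard R} → κ) := fun x A => c (insert x A.1) with htp
  set T := (range N \ W).image tp with hTd
  have hex : ∀ t ∈ T, ∃ x, x ∈ range N \ W ∧ tp x = t := by
    intro t ht
    obtain ⟨x, hx, h⟩ := mem_image.1 ht
    exact ⟨x, hx, h⟩
  choose! f hf hft using hex
  have hinj : Set.InjOn f (T : Set _) := by
    intro t ht t' ht' h
    rw [← hft t ht, ← hft t' ht', h]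
  have hcard : T.card ≤ B W.card := by
    rw [← card_image_of_injOn hinj]
    refine hT W hW (T.image f) ?_ ?_ ?_
    · intro x hx
      obtain ⟨t, ht, rfl⟩ := mem_image.1 hx
      exact (mem_sdiff.1 (hf t ht)).1
    · rw [disjoint_left]
      intro x hx
      obtain ⟨t, ht, rfl⟩ := mem_image.1 hx
      exact (mem_sdiff.1 (hf t ht)).2
    · intro x hx y hy hxy
      obtain ⟨t, ht, rfl⟩ := mem_image.1 hx
      obtain ⟨t', ht', rfl⟩ := mem_image.1 hy
      have hne : tp (f t) ≠ tp (f t') := by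
        rw [hft t ht, hft t' ht']
        rintro rfl
        exact hxy rfl
      rw [Function.ne_iff] at hne
      obtain ⟨⟨A, hA⟩, hAne⟩ := hne
      rw [mem_powersetCard] at hA
      exact ⟨A, hA.1, by rw [hA.2], hAne⟩
  have hpos : 0 < B W.card := hB1 _
  refine ⟨fun x => if h : tp x ∈ T then Fin.castLE hcard (T.equivFin ⟨tp x, h⟩) else ⟨0, hpos⟩, ?_⟩
  intro x hx y hy hxW hyW heq A hA hAc
  have h1 : tp x ∈ T := mem_image_of_mem _ (mem_sdiff.2 ⟨hx, hxW⟩)
  have h2 : tp y ∈ T := mem_image_of_mem _ (mem_sdiff.2 ⟨hy, hyW⟩)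
  simp only [dif_pos h1, dif_pos h2] at heq
  have h3 : tp x = tp y := by
    have h4 := Fin.castLE_injective hcard heq
    have h5 := (T.equivFin).injective h4
    exact congrArg Subtype.val h5
  exact congrFun h3 ⟨A, mem_powersetCard.2 ⟨hA, hAc⟩⟩

theorem same_type {κ κ' : Type} {c : Finset ℕ → κ} {c' : Finset ℕ → κ'} {R N : ℕ}
    (hS : Steps c c' R N) {W : Finset ℕ} (hW : W ⊆ range (2 ^ N)) {g : ℕ → ℕ}
    (hg : ∀ p, g p ∈ W) (hgm : ∀ p x, x ∈ W → hh x p = max (hh (g p) p) (hh x (g p)))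
    {x x' : ℕ} (hx : x < 2 ^ N) (hx' : x' < 2 ^ N) (hxW : x ∉ W) (hxW' : x' ∉ W)
    (e1 : g x = g x')
    (e2 : (W.filter (fun y => y < x)).card = (W.filter (fun y => y < x')).card)
    (e4 : ((HZ W).filter (fun y => y < hh (g x) x)).card =
      ((HZ W).filter (fun y => y < hh (g x') x')).card)
    (e5 : ((HZ W).filter (fun y => y ≤ hh (g x) x)).card =
      ((HZ W).filter (fun y => y ≤ hh (g x') x')).card)
    (e8 : hh (g x) x ∉ HZ W → hh (g x') x' ∉ HZ W → ∀ A ⊆ HZ W, A.card = R →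
      c (insert (hh (g x) x) A) = c (insert (hh (g x') x') A))
    {A : Finset ℕ} (hA : A ⊆ W) (hc : A.card = R + 1) :
    c' (insert x A) = c' (insert x' A) := by
  have hxA : x ∉ A := fun h => hxW (hA h)
  have hxA' : x' ∉ A := fun h => hxW' (hA h)
  set δ := hh (g x) x with hδ
  set δ' := hh (g x') x' with hδ'
  obtain ⟨i, X, hX, hXim, hXi, hXa, hXlt⟩ := insert_point hc hxA
  obtain ⟨i', X', hX', hXim', hXi', hXa', hXlt'⟩ := insert_point hc hxA'
  set a := srt (R + 1) A with ha
  have haA : ∀ k, a k ∈ W := by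
    intro k
    apply hA
    have h1 := srt_image hc
    rw [← h1]
    exact mem_image_of_mem _ (mem_univ _)
  have hii : i' = i := by
    apply Fin.ext
    have key : ∀ k : Fin (R + 1), (k : ℕ) < i ↔ (k : ℕ) < i' := by
      intro k
      rw [← hXlt k, ← hXlt' k]
      exact filter_lt_iff e2 (haA k)
    rcases lt_trichotomy (i : ℕ) i' with h | h | h
    · have h1 := key ⟨i, by omega⟩
      simp only at h1
      omega
    · exact h.symm
    · have h1 := key ⟨i', by omega⟩
      simp only at h1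
      omega
  subst hii
  have hXb : ∀ k, X k < 2 ^ N := by
    intro k
    have h1 : X k ∈ insert x A := by rw [← hXim]; exact mem_image_of_mem _ (mem_univ _)
    rcases mem_insert.1 h1 with h | h
    · rw [h]; exact hx
    · exact mem_range.1 (hW (hA h))
  have hXb' : ∀ k, X' k < 2 ^ N := by
    intro k
    have h1 : X' k ∈ insert x' A := by rw [← hXim']; exact mem_image_of_mem _ (mem_univ _)
    rcases mem_insert.1 h1 with h | h
    · rw [h]; exact hx'
    · exact mem_range.1 (hW (hA h))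
  -- values
  set V : Unit ⊕ {h // h ∈ HZ W} → ℕ := Sum.elim (fun _ => δ) Subtype.val with hV
  set V' : Unit ⊕ {h // h ∈ HZ W} → ℕ := Sum.elim (fun _ => δ') Subtype.val with hV'
  have hcmp : ∀ p q, V p < V q ↔ V' p < V' q := by
    rintro (p | ⟨p, hp⟩) (q | ⟨q, hq⟩)
    · simp only [hV, hV', Sum.elim_inl, lt_irrefl]
    · have := filter_le_iff e5 hq
      simp only [hV, hV', Sum.elim_inl, Sum.elim_inr]
      omega
    · exact filter_lt_iff e4 hp
    · exact Iff.rfl
  have hXs : ∀ k, X (i'.succAbove k) = a k := fun k => by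
    rw [← hXa, Fin.removeNth_apply]
  have hXs' : ∀ k, X' (i'.succAbove k) = a k := fun k => by
    rw [← hXa', Fin.removeNth_apply]
  have hval : ∀ u v, u ≠ v → ∃ p q, hh (X u) (X v) = max (V p) (V q) ∧
      hh (X' u) (X' v) = max (V' p) (V' q) := by
    intro u v huv
    rcases Fin.eq_self_or_eq_succAbove i' u with hu | ⟨k, hu⟩ <;>
      rcases Fin.eq_self_or_eq_succAbove i' v with hv | ⟨l, hv⟩
    · exact absurd (hu.trans hv.symm) huv
    · refine ⟨Sum.inl (), Sum.inr ⟨hh (a l) (g x), hh_mem_HZ (haA l) (hg _)⟩, ?_, ?_⟩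
      · rw [hu, hv, hXi, hXs, hh_comm]
        exact hgm x (a l) (haA l)
      · show _ = max δ' (hh (a l) (g x))
        rw [hu, hv, hXi', hXs', hh_comm, hgm x' (a l) (haA l), e1]
    · refine ⟨Sum.inl (), Sum.inr ⟨hh (a k) (g x), hh_mem_HZ (haA k) (hg _)⟩, ?_, ?_⟩
      · rw [hu, hv, hXi, hXs]
        exact hgm x (a k) (haA k)
      · show _ = max δ' (hh (a k) (g x))
        rw [hu, hv, hXi', hXs', hgm x' (a k) (haA k), e1]
    · refine ⟨Sum.inr ⟨hh (a k) (a l), hh_mem_HZ (haA k) (haA l)⟩,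
        Sum.inr ⟨hh (a k) (a l), hh_mem_HZ (haA k) (haA l)⟩, ?_, ?_⟩
      · rw [hu, hv, hXs, hXs, max_self]
        rfl
      · rw [hu, hv, hXs', hXs', max_self]
        rfl
  have hDX : ∀ k, D X k = hh (X k.castSucc) (X k.succ) := fun k => by
    rw [hh_lt (hX (Fin.castSucc_lt_succ))]
    rfl
  have hDX' : ∀ k, D X' k = hh (X' k.castSucc) (X' k.succ) := fun k => by
    rw [hh_lt (hX' (Fin.castSucc_lt_succ))]
    rfl
  have hpat : Pat (D X) (D X') := by
    intro k l
    obtain ⟨p, q, h1, h2⟩ := hval k.castSucc k.succ (Fin.castSucc_lt_succ).ne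
    obtain ⟨p', q', h3, h4⟩ := hval l.castSucc l.succ (Fin.castSucc_lt_succ).ne
    rw [hDX, hDX, hDX', hDX', h1, h2, h3, h4]
    exact max_cmp hcmp p q p' q'
  rw [← hXim, ← hXim']
  refine hS X X' hX hX' hXb hXb' hpat ?_
  intro hmon
  -- the monotone case
  have hpq : ∃ p q : Fin (R + 1), (D a = p.removeNth (D X) ∧ D X p = hh x (a q)) ∧
      (D a = p.removeNth (D X') ∧ D X' p = hh x' (a q)) := by
    rcases hmon with hm | hm
    · obtain ⟨p, q, h⟩ := rem_mono i'
      refine ⟨p, q, ?_, ?_⟩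
      · have := h X hX hm
        rw [hXa, hXi] at this
        exact this
      · have := h X' hX' (hpat.mono hm)
        rw [hXa', hXi'] at this
        exact this
    · obtain ⟨p, q, h⟩ := rem_anti i'
      refine ⟨p, q, ?_, ?_⟩
      · have := h X hX hm
        rw [hXa, hXi] at this
        exact this
      · have := h X' hX' (hpat.anti hm)
        rw [hXa', hXi'] at this
        exact this
  obtain ⟨p, q, ⟨h1, h2⟩, ⟨h3, h4⟩⟩ := hpq
  have hinj : Function.Injective (D X) := by
    rcases hmon with hm | hm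
    · exact hm.injective
    · exact hm.injective
  rw [image_removeNth (D X) p, image_removeNth (D X') p, ← h1, ← h3, h2, h4]
  have hcardR : (univ.image (D a)).card = R := by
    rw [h1, card_image_of_injective, card_univ, Fintype.card_fin]
    intro k l hkl
    rw [Fin.removeNth_apply, Fin.removeNth_apply] at hkl
    exact Fin.succAbove_right_injective (hinj hkl)
  have hsub : univ.image (D a) ⊆ HZ W := by
    intro w hw
    obtain ⟨k, -, rfl⟩ := mem_image.1 hw
    have h5 : D a k = hh (a k.castSucc) (a k.succ) := by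
      rw [hh_lt (srt_mono hc (Fin.castSucc_lt_succ))]
      rfl
    rw [h5]
    exact hh_mem_HZ (haA _) (haA _)
  have hy : hh x (a q) = max δ (hh (a q) (g x)) := by
    rw [hh_comm]
    exact hgm x (a q) (haA q)
  have hy' : hh x' (a q) = max δ' (hh (a q) (g x)) := by
    rw [hh_comm, e1]
    exact hgm x' (a q) (haA q)
  rw [hy, hy']
  set h0 := hh (a q) (g x) with hh0
  have hH : h0 ∈ HZ W := hh_mem_HZ (haA q) (hg _)
  have heqof : ∀ h ∈ HZ W, (h = δ ∨ h = δ') → δ = δ' := by
    intro h hh1 hor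
    have k1 := hcmp (Sum.inr ⟨h, hh1⟩) (Sum.inl ())
    have k2 := hcmp (Sum.inl ()) (Sum.inr ⟨h, hh1⟩)
    simp only [hV, hV', Sum.elim_inl, Sum.elim_inr] at k1 k2
    omega
  by_cases hlt : h0 < δ
  · have hlt' : h0 < δ' := (hcmp (Sum.inr ⟨h0, hH⟩) (Sum.inl ())).1 hlt
    rw [max_eq_left hlt.le, max_eq_left hlt'.le]
    by_cases hmem : δ ∈ HZ W
    · rw [heqof δ hmem (Or.inl rfl)]
    · by_cases hmem' : δ' ∈ HZ W
      · rw [heqof δ' hmem' (Or.inr rfl)]
      · exact e8 hmem hmem' _ hsub hcardR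
  · have hlt' : ¬ h0 < δ' := fun h => hlt ((hcmp (Sum.inr ⟨h0, hH⟩) (Sum.inl ())).2 h)
    rw [max_eq_right (not_lt.1 hlt), max_eq_right (not_lt.1 hlt')]

/-- **Stepping up multiplies the number of types by a polynomial factor.** -/
theorem few_step {κ κ' : Type} {c : Finset ℕ → κ} {c' : Finset ℕ → κ'} {R N : ℕ}
    (hS : Steps c c' R N) (hN : 1 ≤ N) {B : ℕ → ℕ} (hB : Monotone B) (hB1 : ∀ m, 1 ≤ B m)
    (hT : FewTypes B (R + 1) N c) :
    FewTypes (fun m => (m + 1) ^ 4 * B m) (R + 2) (2 ^ N) c' := by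
  classical
  intro W hW V hV hdis hsep
  rcases W.eq_empty_or_nonempty with hne | hne
  · have h1 : V.card ≤ 1 := by
      rw [card_le_one]
      intro x hx y hy
      by_contra hxy
      obtain ⟨A, hA, hAc, -⟩ := hsep x hx y hy hxy
      rw [hne, subset_empty] at hA
      rw [hA, card_empty] at hAc
      omega
    refine h1.trans ?_
    exact Nat.mul_pos (by positivity) (hB1 _)
  · choose g hg hgm using exists_near hne
    obtain ⟨code, hcode⟩ := exists_code hT hB1 (HZ_sub hN hW)
    have hm1 : ∀ v : ℕ, (W.filter (fun y => y < v)).card < W.card + 1 := fun v =>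
      Nat.lt_succ_of_le (card_le_card (filter_subset _ _))
    have hm3 : ∀ v : ℕ, ((HZ W).filter (fun y => y < v)).card < W.card + 1 := fun v =>
      Nat.lt_succ_of_le ((card_le_card (filter_subset _ _)).trans (HZ_card W))
    have hm4 : ∀ v : ℕ, ((HZ W).filter (fun y => y ≤ v)).card < W.card + 1 := fun v =>
      Nat.lt_succ_of_le ((card_le_card (filter_subset _ _)).trans (HZ_card W))
    set F : ℕ → {z // z ∈ W} × Fin (W.card + 1) × Fin (W.card + 1) × Fin (W.card + 1) ×
        Fin (B (HZ W).card) := fun x => (⟨g x, hg x⟩, ⟨_, hm1 x⟩, ⟨_, hm3 (hh (g x) x)⟩,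
          ⟨_, hm4 (hh (g x) x)⟩, code (hh (g x) x)) with hF
    have hFinj : Set.InjOn F (V : Set ℕ) := by
      intro x hx y hy heq
      by_contra hxy
      have hx1 : x < 2 ^ N := mem_range.1 (hV hx)
      have hy1 : y < 2 ^ N := mem_range.1 (hV hy)
      have hxW : x ∉ W := fun h => (disjoint_left.1 hdis) hx h
      have hyW : y ∉ W := fun h => (disjoint_left.1 hdis) hy h
      obtain ⟨A, hA, hAc, hAne⟩ := hsep x hx y hy hxy
      simp only [hF, Prod.mk.injEq, Subtype.mk.injEq, Fin.mk.injEq] at heq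
      obtain ⟨q1, q2, q3, q4, q5⟩ := heq
      have hb : ∀ z, z < 2 ^ N → hh (g z) z ∈ range N := fun z hz =>
        mem_range.2 (hh_bound hN (mem_range.1 (hW (hg z))) hz)
      exact hAne (same_type hS hW hg hgm hx1 hy1 hxW hyW q1 q2 q3 q4
        (fun k1 k2 A' hA' hA'c => hcode _ (hb x hx1) _ (hb y hy1) k1 k2 q5 A' hA' hA'c)
        hA (by omega))
    have h1 : V.card ≤ Fintype.card ({z // z ∈ W} × Fin (W.card + 1) × Fin (W.card + 1) ×
        Fin (W.card + 1) × Fin (B (HZ W).card)) := by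
      rw [← card_univ]
      exact card_le_card_of_injOn F (fun x _ => mem_coe.2 (mem_univ _)) hFinj
    refine h1.trans ?_
    simp only [Fintype.card_prod, Fintype.card_fin, Fintype.card_coe]
    have h2 : B (HZ W).card ≤ B W.card := hB (HZ_card W)
    calc W.card * ((W.card + 1) * ((W.card + 1) * ((W.card + 1) * B (HZ W).card)))
        ≤ (W.card + 1) * ((W.card + 1) * ((W.card + 1) * ((W.card + 1) * B W.card))) := by
          gcongr
          exact Nat.le_succ _
      _ = (W.card + 1) ^ 4 * B W.card := by ring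

end Pool.Agent.W2helper98.TG
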