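import Pool.Agent.W2helper98.TG.Rec
import Pool.Agent.N584.TI.Final

/-!
# The stepped-up colourings of the library, for an arbitrary set of colours
-/

set_option autoImplicit false

namespace Pool.Agent.W2helper98.TG

open Finset Pool.Agent.TH138.NF Pool.Agent.Y424.LK
open Pool.Agent.N584.TI

/-- The scale given by the highest differing digit. -/
noncomputable def ρD (a b : ℕ) : ℝ := (hd a b : ℝ)

theorem isScale_ρD : IsScale ρD := by
  constructor
  · intro a b c d h1 h2 h3
    unfold ρD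
    have h4 : hd b c ≤ hd a d := by
      rw [hd_spec (show a < d by omega)]
      have h5 := (hd_spec h2 (hd b c)).1 le_rfl
      have h6 : a / 2 ^ hd b c ≤ b / 2 ^ hd b c := Nat.div_le_div_right h1
      have h7 : b / 2 ^ hd b c ≤ c / 2 ^ hd b c := Nat.div_le_div_right h2.le
      have h8 : c / 2 ^ hd b c ≤ d / 2 ^ hd b c := Nat.div_le_div_right h3
      omega
    exact_mod_cast h4
  · intro a b c h1 h2
    unfold ρD
    have h3 : min (hd a b) (hd b c) + 1 ≤ hd a c := by
      rw [hd_max h1 h2]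
      have := hd_ne h1 h2
      omega
    exact_mod_cast h3

/-- Sets of a wrong size get a fixed colour. -/
noncomputable def nrm {κ : Type} (κ₀ : κ) (r : ℕ) (c : Finset ℕ → κ) (S : Finset ℕ) : κ :=
  if S.card = r then c S else κ₀

theorem few_nrm {κ : Type} {κ₀ : κ} {B : ℕ → ℕ} {r N : ℕ} {c : Finset ℕ → κ}
    (h : FewTypes B r N c) : FewTypes B r N (nrm κ₀ r c) := by
  intro W hW V hV hdis hsep
  refine h W hW V hV hdis ?_
  intro x hx y hy hxy
  obtain ⟨A, hA, hAc, hne⟩ := hsep x hx y hy hxy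
  refine ⟨A, hA, hAc, ?_⟩
  have h1 : x ∉ A := fun hh => (disjoint_left.1 hdis) hx (hA hh)
  have h2 : y ∉ A := fun hh => (disjoint_left.1 hdis) hy (hA hh)
  unfold nrm at hne
  rwa [card_insert_of_notMem h1, card_insert_of_notMem h2, if_pos hAc, if_pos hAc] at hne

section prefix_max

variable {n : ℕ} {X : Fin (n + 2) → ℕ}

theorem suff_step (hX : StrictMono X) (j : Fin n) :
    hd (X j.castSucc.castSucc) (X (Fin.last (n + 1))) =
      max (D X j.castSucc) (hd (X j.succ.castSucc) (X (Fin.last (n + 1)))) := by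
  have h1 : X j.castSucc.castSucc < X j.castSucc.succ := hX Fin.castSucc_lt_succ
  have h2 : X j.succ.castSucc < X (Fin.last (n + 1)) := hX (Fin.castSucc_lt_last _)
  have e : j.castSucc.succ = j.succ.castSucc := Fin.succ_castSucc j
  rw [e] at h1
  rw [hd_max h1 h2]
  rfl

theorem suff_anti (hX : StrictMono X) (h : StrictAnti (D X)) (i : Fin (n + 1)) :
    hd (X i.castSucc) (X (Fin.last (n + 1))) = D X i := by
  induction i using Fin.reverseInduction with
  | last => rfl
  | cast j ih =>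
    rw [suff_step hX j, ih]
    exact max_eq_left (h (Fin.castSucc_lt_succ)).le

theorem suff_card (hX : StrictMono X)
    (h : (univ.image fun i : Fin (n + 1) => hd (X i.castSucc) (X (Fin.last (n + 1)))).card =
      n + 1) : StrictAnti (D X) := by
  set f : Fin (n + 1) → ℕ := fun i => hd (X i.castSucc) (X (Fin.last (n + 1))) with hf
  have hinj : Function.Injective f := by
    have h1 : (univ.image f).card = (univ : Finset (Fin (n + 1))).card := by
      rw [h, card_univ, Fintype.card_fin]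
    have h2 := card_image_iff.1 h1
    intro a b hab
    exact h2 (by simp) (by simp) hab
  have hs : ∀ j : Fin n, f j.castSucc = max (D X j.castSucc) (f j.succ) := fun j => suff_step hX j
  have hlt : ∀ j : Fin n, f j.succ < f j.castSucc := by
    intro j
    have h1 := hs j
    have h2 : f j.succ ≠ f j.castSucc := fun e => (Fin.castSucc_lt_succ (i := j)).ne (hinj e.symm)
    omega
  have hD : D X = f := by
    funext i
    refine Fin.lastCases ?_ (fun j => ?_) i
    · rfl
    · have h1 := hs j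
      have h2 := hlt j
      omega
  rw [hD, Fin.strictAnti_iff_succ_lt]
  exact hlt

theorem pref_step (hX : StrictMono X) (j : Fin n) :
    hd (X 0) (X j.succ.succ) = max (hd (X 0) (X j.castSucc.succ)) (D X j.succ) := by
  have h1 : X 0 < X j.castSucc.succ := hX (Fin.succ_pos _)
  have h2 : X j.succ.castSucc < X j.succ.succ := hX Fin.castSucc_lt_succ
  have e : j.castSucc.succ = j.succ.castSucc := Fin.succ_castSucc j
  rw [← e] at h2
  rw [hd_max h1 h2]
  rfl

theorem pref_mono (hX : StrictMono X) (h : StrictMono (D X)) (i : Fin (n + 1)) :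
    hd (X 0) (X i.succ) = D X i := by
  induction i using Fin.induction with
  | zero => rfl
  | succ j ih =>
    rw [pref_step hX j, ih]
    exact max_eq_right (h (Fin.castSucc_lt_succ)).le

theorem pref_card (hX : StrictMono X)
    (h : (univ.image fun i : Fin (n + 1) => hd (X 0) (X i.succ)).card = n + 1) :
    StrictMono (D X) := by
  set f : Fin (n + 1) → ℕ := fun i => hd (X 0) (X i.succ) with hf
  have hinj : Function.Injective f := by
    have h1 : (univ.image f).card = (univ : Finset (Fin (n + 1))).card := by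
      rw [h, card_univ, Fintype.card_fin]
    have h2 := card_image_iff.1 h1
    intro a b hab
    exact h2 (by simp) (by simp) hab
  have hs : ∀ j : Fin n, f j.succ = max (f j.castSucc) (D X j.succ) := fun j => pref_step hX j
  have hlt : ∀ j : Fin n, f j.castSucc < f j.succ := by
    intro j
    have h1 := hs j
    have h2 : f j.succ ≠ f j.castSucc := fun e => (Fin.castSucc_lt_succ (i := j)).ne (hinj e.symm)
    omega
  have hD : D X = f := by
    funext i
    refine Fin.cases ?_ (fun j => ?_) i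
    · rfl
    · have h1 := hs j
      have h2 := hlt j
      omega
  rw [hD, Fin.strictMono_iff_lt_succ]
  exact hlt

end prefix_max

theorem lev_image {κ : Type} (c : Finset ℕ → κ) {n : ℕ} (f : Fin n → ℕ) :
    lev c (univ.image fun i => (f i : ℝ)) = c (univ.image f) := by
  unfold lev
  rw [image_image]
  congr 1
  apply image_congr
  intro i _
  simp

theorem steps_stepF {κ : Type} (κ₀ κ₁ : κ) (c : Finset ℕ → κ) (s N : ℕ) :
    Steps (nrm κ₀ (s + 3) c)
      (ofTup (s + 4) κ₀ (stepF ρD κ₀ κ₁ (lev (nrm κ₀ (s + 3) c)) s)) (s + 2) N := by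
  classical
  intro X X' hX hX' hb hb' hpat hmon
  have e1 : ofTup (s + 4) κ₀ (stepF ρD κ₀ κ₁ (lev (nrm κ₀ (s + 3) c)) s) (univ.image X) =
      stepF ρD κ₀ κ₁ (lev (nrm κ₀ (s + 3) c)) s X := ofTup_image hX
  have e2 : ofTup (s + 4) κ₀ (stepF ρD κ₀ κ₁ (lev (nrm κ₀ (s + 3) c)) s) (univ.image X') =
      stepF ρD κ₀ κ₁ (lev (nrm κ₀ (s + 3) c)) s X' := ofTup_image hX'
  rw [e1, e2]
  have q : ∀ Y : Fin (s + 4) → ℕ, ρD (Y 0) (Y 1) = ((D Y 0 : ℕ) : ℝ) ∧
      ρD (Y 1) (Y 2) = ((D Y 1 : ℕ) : ℝ) ∧ ρD (Y 2) (Y 3) = ((D Y 2 : ℕ) : ℝ) :=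
    fun Y => ⟨rfl, rfl, rfl⟩
  have a3 : ∀ Y : Fin (s + 4) → ℕ, StrictMono Y →
      lev (nrm κ₀ (s + 3) c) (univ.image fun i : Fin (s + 3) => ρD (Y i.castSucc) (Y (Fin.last _))) =
        if StrictAnti (D Y) then nrm κ₀ (s + 3) c (univ.image (D Y)) else κ₀ := by
    intro Y hY
    unfold ρD
    rw [lev_image (nrm κ₀ (s + 3) c) (fun i : Fin (s + 3) => hd (Y i.castSucc) (Y (Fin.last _)))]
    split_ifs with h
    · congr 1
      apply image_congr
      intro i _
      exact suff_anti (n := s + 2) hY h i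
    · unfold nrm
      rw [if_neg]
      intro hc
      exact h (suff_card (n := s + 2) hY hc)
  have a4 : ∀ Y : Fin (s + 4) → ℕ, StrictMono Y →
      lev (nrm κ₀ (s + 3) c) (univ.image fun i : Fin (s + 3) => ρD (Y 0) (Y i.succ)) =
        if StrictMono (D Y) then nrm κ₀ (s + 3) c (univ.image (D Y)) else κ₀ := by
    intro Y hY
    unfold ρD
    rw [lev_image (nrm κ₀ (s + 3) c) (fun i : Fin (s + 3) => hd (Y 0) (Y i.succ))]
    split_ifs with h
    · congr 1
      apply image_congr
      intro i _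
      exact pref_mono (n := s + 2) hY h i
    · unfold nrm
      rw [if_neg]
      intro hc
      exact h (pref_card (n := s + 2) hY hc)
  unfold stepF
  rw [(q X).1, (q X).2.1, (q X).2.2, (q X').1, (q X').2.1, (q X').2.2, a3 X hX, a3 X' hX',
    a4 X hX, a4 X' hX']
  simp only [Nat.cast_lt]
  have p01 := hpat 0 1
  have p21 := hpat 2 1
  have p10 := hpat 1 0
  have p12 := hpat 1 2
  have p20 := hpat 2 0
  simp only [p01, p21, p10, p12, p20]
  have hA : StrictAnti (D X) ↔ StrictAnti (D X') := ⟨hpat.anti, hpat.symm.anti⟩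
  have hM : StrictMono (D X) ↔ StrictMono (D X') := ⟨hpat.mono, hpat.symm.mono⟩
  split_ifs with h1 h2 h3 h4 h5 h6 h7 h8
  · rfl
  · rfl
  · exact hmon (Or.inr h4)
  · exact absurd (hA.1 h4) h5
  · exact absurd (hA.2 (by assumption)) h4
  · rfl
  · exact hmon (Or.inl (by assumption))
  · exact absurd (hM.1 (by assumption)) (by assumption)
  · exact absurd (hM.2 (by assumption)) (by assumption)
  · rfl

theorem few_const {κ : Type*} {B : ℕ → ℕ} (hB1 : ∀ m, 1 ≤ B m) (r N : ℕ) (κ₀ : κ) :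
    FewTypes B r N (fun _ => κ₀) := by
  intro W hW V hV hdis hsep
  have h1 : V.card ≤ 1 := by
    rw [card_le_one]
    intro x hx y hy
    by_contra hxy
    obtain ⟨A, -, -, hne⟩ := hsep x hx y hy hxy
    exact hne rfl
  exact h1.trans (hB1 _)

theorem few_mono {κ : Type*} {B B' : ℕ → ℕ} (h : ∀ m, B m ≤ B' m) {r N : ℕ} {c : Finset ℕ → κ}
    (hc : FewTypes B r N c) : FewTypes B' r N c :=
  fun W hW V hV hdis hsep => (hc W hW V hV hdis hsep).trans (h _)

theorem few_hered {κ : Type*} {B : ℕ → ℕ} : Hered (κ := κ) (FewTypes B) := by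
  intro r N N' c hN hc W hW V hV hdis hsep
  exact hc W (hW.trans (range_subset_range.2 hN)) V (hV.trans (range_subset_range.2 hN)) hdis hsep

theorem few_inh {κ : Type*} [Nonempty κ] {B : ℕ → ℕ} (hB1 : ∀ m, 1 ≤ B m) :
    Inh (κ := κ) (FewTypes B) := by
  obtain ⟨κ₀⟩ := ‹Nonempty κ›
  intro r N
  exact ⟨fun _ => κ₀, few_const hB1 r N κ₀⟩

/-- **Stepping up within colourings with few types.** -/
theorem arrow_step {κ : Type} {κ₀ κ₁ : κ} (hκ : κ₀ ≠ κ₁) {s n m : ℕ} (hn : 1 ≤ n) {B : ℕ → ℕ}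
    (hB : Monotone B) (hB1 : ∀ m, 1 ≤ B m)
    (h : ¬ Arrow (κ := κ) (FewTypes B) (s + 3) n m) :
    ¬ Arrow (κ := κ) (FewTypes fun k => (k + 1) ^ 4 * B k) (s + 4) (2 * n + s + 2) (2 ^ m) := by
  have hB1' : ∀ m, 1 ≤ (fun k => (k + 1) ^ 4 * B k) m := fun m =>
    Nat.mul_pos (by positivity) (hB1 m)
  rcases Nat.eq_zero_or_pos m with rfl | hm
  · intro hA
    obtain ⟨S, hS, hSn, -⟩ := hA (fun _ => κ₀) (few_const hB1' _ _ κ₀)
    have := card_le_card hS
    rw [card_range] at this
    omega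
  unfold Arrow at h
  push Not at h
  obtain ⟨c₀, hc₀, hno⟩ := h
  have hno' : ∀ S ⊆ range m, S.card = n → ∀ b, ∃ A ⊆ S, A.card = s + 3 ∧
      nrm κ₀ (s + 3) c₀ A ≠ b := by
    intro S hS hSn b
    obtain ⟨A, hA, hAc, hne⟩ := hno S hS hSn b
    refine ⟨A, hA, hAc, ?_⟩
    unfold nrm
    rwa [if_pos hAc]
  intro hA
  obtain ⟨S, hS, hSn, b, hb⟩ := hA
    (ofTup (s + 4) κ₀ (stepF ρD κ₀ κ₁ (lev (nrm κ₀ (s + 3) c₀)) s))
    (few_step (steps_stepF κ₀ κ₁ c₀ s m) hm hB hB1 (few_nrm hc₀))
  obtain ⟨Λ, hΛn, hΛ, -, hΛb⟩ := step_main (n := n) isScale_ρD hκ hn (S := S) (b := b)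
    (χ := lev (nrm κ₀ (s + 3) c₀)) (s := s) (by omega) (by
      intro x hx hxS
      have := hb _ (mem_of_tuple hxS) (card_tuple hx)
      rwa [ofTup_image hx] at this)
  refine lev_contra hno' hΛn ?_ hΛb
  intro l hl
  obtain ⟨x, hx, y, hy, hxy, rfl⟩ := hΛ l hl
  refine ⟨hd x y, ?_, rfl⟩
  have hy' : y < 2 ^ m := by simpa using hS hy
  exact hd_lt hxy hy'

end Pool.Agent.W2helper98.TG
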